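import Pool.Agent.W873.RT.Stm

/-!
# Shifted scalars
-/

set_option autoImplicit false

open MeasureTheory ProbabilityTheory Polynomial Filter Topology
open scoped ENNReal NNReal

namespace Pool.Agent.W73.RT.SHF

open Pool.Agent.W873.RS Pool.Agent.W873.RT

theorem main (hEX : Pool.Agent.W873.RT.EX2) : Pool.Agent.W873.RT.SHF := by
  intro s f μ hμ K M ε δ hε hδ hf hK hM
  have hmeas : Measurable (fun x : ℝ => x + δ) := measurable_id.add_const δ
  let μ' : Fin s → Measure ℝ := fun i => (μ i).map (fun x => x + δ)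
  have hprob : ∀ i, IsProbabilityMeasure (μ' i) := by
    intro i
    exact Measure.isProbabilityMeasure_map hmeas.aemeasurable
  have hK' : ∀ i, μ' i ≤ (K : ℝ≥0∞) • volume := by
    intro i
    have h1 : (μ i).map (fun x => x + δ) ≤ ((K : ℝ≥0∞) • (volume : Measure ℝ)).map
        (fun x => x + δ) := Measure.map_mono (hK i) hmeas
    rw [Measure.map_smul, map_add_right_eq_self (volume : Measure ℝ) δ] at h1
    exact h1
  have hM' : ∀ i, ∫⁻ c, ENNReal.ofReal |c| ∂(μ' i) ≤ ((M + Real.toNNReal |δ| : ℝ≥0) : ℝ≥0∞) := by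
    intro i
    have h1 : ∫⁻ c, ENNReal.ofReal |c| ∂(μ' i) = ∫⁻ c, ENNReal.ofReal |c + δ| ∂(μ i) := by
      show ∫⁻ c, ENNReal.ofReal |c| ∂((μ i).map (fun x => x + δ)) = _
      rw [lintegral_map (by fun_prop) hmeas]
    rw [h1]
    calc ∫⁻ c, ENNReal.ofReal |c + δ| ∂(μ i)
        ≤ ∫⁻ c, (ENNReal.ofReal |c| + ENNReal.ofReal |δ|) ∂(μ i) := by
          apply lintegral_mono
          intro c
          show ENNReal.ofReal |c + δ| ≤ ENNReal.ofReal |c| + ENNReal.ofReal |δ|
          rw [← ENNReal.ofReal_add (abs_nonneg _) (abs_nonneg _)]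
          exact ENNReal.ofReal_le_ofReal (abs_add_le c δ)
      _ = ∫⁻ c, ENNReal.ofReal |c| ∂(μ i) + ENNReal.ofReal |δ| := by
          rw [lintegral_add_right _ measurable_const, lintegral_const, measure_univ, mul_one]
      _ ≤ (M : ℝ≥0∞) + ENNReal.ofReal |δ| := by
          gcongr
          exact hM i
      _ = ((M + Real.toNNReal |δ| : ℝ≥0) : ℝ≥0∞) := by
          rw [ENNReal.coe_add]
          rfl
  have hpi : Measure.pi μ' = (Measure.pi μ).map
      (MeasurableEquiv.addRight (fun _ : Fin s => δ)) := by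
    have h1 := Measure.pi_map_pi (μ := μ) (f := fun (_ : Fin s) (x : ℝ) => x + δ)
      (hμ := fun i => inferInstance) (fun i => hmeas.aemeasurable)
    exact h1.symm
  have hsq : ∀ c : Fin s → ℝ, sq f (fun i => c i + δ) = sq f c + C δ * ∑ i, f i ^ 2 := by
    intro c
    unfold Pool.Agent.W873.RT.sq
    rw [Finset.mul_sum, ← Finset.sum_add_distrib]
    apply Finset.sum_congr rfl
    intro i _
    rw [map_add, add_mul]
  have hmain := hEX s f μ' K (M + Real.toNNReal |δ|) ε hε hf hK' hM'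
  rw [hpi, lintegral_map_equiv] at hmain
  have h2 : ∫⁻ c, volume (chg (fun x => (sq f c + C δ * ∑ i, f i ^ 2).eval x) ε)
      ∂(Measure.pi μ) = ∫⁻ c, volume (chg (fun x =>
        (sq f (MeasurableEquiv.addRight (fun _ : Fin s => δ) c)).eval x) ε) ∂(Measure.pi μ) := by
    apply lintegral_congr
    intro c
    rw [← hsq c]
    rfl
  rw [h2]
  refine hmain.trans ?_
  have h3 : (K : ℝ≥0∞) * (Real.toNNReal |δ| : ℝ≥0) ≤ 1 := by
    rw [← ENNReal.coe_mul]
    apply ENNReal.coe_le_one_iff.2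
    rw [← NNReal.coe_le_coe]
    push_cast
    rw [Real.coe_toNNReal _ (abs_nonneg δ)]
    nlinarith [abs_nonneg δ]
  have h4 : (24 : ℝ≥0∞) * (1 + K * ((M + Real.toNNReal |δ| : ℝ≥0) : ℝ≥0∞)) ≤
      48 * (1 + K * M) := by
    calc (24 : ℝ≥0∞) * (1 + K * ((M + Real.toNNReal |δ| : ℝ≥0) : ℝ≥0∞))
        = 24 * (1 + K * M + K * (Real.toNNReal |δ| : ℝ≥0)) := by
          rw [ENNReal.coe_add]
          ring
      _ ≤ 24 * (1 + K * M + 1) := by gcongr
      _ ≤ 24 * (1 + K * M + (1 + K * M)) := by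
          gcongr
          exact le_self_add
      _ = 48 * (1 + K * M) := by ring
  gcongr

end Pool.Agent.W73.RT.SHF
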